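import Pool.Agent.H194Z.HartogsProof

set_option autoImplicit false

namespace Pool.Agent.Results.MP_7ec995_an.ANotEquicontinuous

open Pool.Agent.H194Z.Hartogs

/-- For every `n ≥ 1` and `0 < r < 1` there is a family of holomorphic maps from the polydisk
`Δ ^ (n + 1)` to the complex projective plane (with the Fubini-Study distance) that is
equicontinuous on the Hartogs figure but not on the polydisk. -/
theorem result (n : ℕ) (hn : 1 ≤ n) (r : ℝ) (hr0 : 0 < r) (hr1 : r < 1) :
    ∃ 𝓕 : Set (E n → P2), (∀ f ∈ 𝓕, IsHolomorphicOn f (polydisk n)) ∧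
      IsEquicontinuousOn 𝓕 (hartogs n r) ∧ ¬ IsEquicontinuousOn 𝓕 (polydisk n) :=
  main n hn r hr0 hr1

end Pool.Agent.Results.MP_7ec995_an.ANotEquicontinuous
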